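import Pool.Agent.H.MP_6c73b3_gt.Main

namespace Pool.Agent.Results.MP_6c73b3_gt.No

open Pool.Agent.H.MP_6c73b3_gt MeasureTheory

theorem result (c : ℝ) (hc : 0 < c) : ∃ p₀ : ℕ, ∀ p ≥ p₀, ∀ Γ : Set E4, IsConvexIn p Γ →
    (volume : Measure E4).toSphere (Subtype.val ⁻¹' Γ) <
      ENNReal.ofReal c * (volume : Measure E4).toSphere Set.univ :=
  main c hc

end Pool.Agent.Results.MP_6c73b3_gt.No
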